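import Mathlib

set_option autoImplicit false

namespace Pool.Agent.Work.MP_90c2fd_co

/-- The Kneser graph `KG(m,k)`: vertices are the `k`-element subsets of an `m`-element set, two
(distinct) subsets being adjacent exactly when they are disjoint. -/
def kneserGraph (m k : ℕ) : SimpleGraph {A : Finset (Fin m) // A.card = k} where
  Adj A B := A ≠ B ∧ Disjoint A.1 B.1
  symm := ⟨fun _ _ h => ⟨h.1.symm, h.2.symm⟩⟩
  loopless := ⟨fun _ h => h.1 rfl⟩

end Pool.Agent.Work.MP_90c2fd_co
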