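import Pool.Agent.Work.MP_90c2fd_co.Final
import Pool.Agent.Work.MP_90c2fd_co.Defs

/-! Blowing up the fractional Ramsey family into Kneser graphs. -/

set_option autoImplicit false

namespace Pool.Agent.Work.MP_90c2fd_co

open Classical Finset

theorem kneser_ramsey (c r : ℕ) (hc : 0 < c) (α : ℝ) (hα : (r : ℝ) + 2 < α) :
    ∃ k₀ : ℕ, ∀ k : ℕ, k₀ ≤ k → ∀ m : ℕ, α * k ≤ m →
      ∀ χ : (kneserGraph m k).edgeSet → Fin c,
        ∃ S : Finset {A : Finset (Fin m) // A.card = k}, (kneserGraph m k).IsNClique (r + 2) S ∧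
          ∃ i : Fin c, ∀ A ∈ S, ∀ B ∈ S, ∀ h : (kneserGraph m k).Adj A B,
            χ ⟨s(A, B), h⟩ = i := by
  have hr : (0 : ℝ) < (r : ℝ) + 2 := by positivity
  have hα0 : 0 < α := hr.trans hα
  set η : ℝ := (α - (r + 2)) / (2 * α) with hηdef
  have hη : 0 < η := div_pos (by linarith) (by linarith)
  have hη1 : (1 - η) * α = (α + (r + 2)) / 2 := by
    rw [hηdef]; field_simp; ring
  have hη2 : 0 ≤ 1 - η := by
    have : 0 < (1 - η) * α := by rw [hη1]; linarith
    by_contra h
    nlinarith
  obtain ⟨Ω, _, _, hΩ⟩ := frac_ramsey r c hc η hη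
  set D := Fintype.card Ω with hD
  have hD0 : 0 < D := Fintype.card_pos
  obtain ⟨k₁, hk₁⟩ := exists_nat_ge (2 * (D : ℝ) / (α - (r + 2)))
  refine ⟨k₁ + 1, fun k hk m hm χ => ?_⟩
  have hk0 : 0 < k := by omega
  have hkR : 2 * (D : ℝ) ≤ k * (α - (r + 2)) := by
    have h1 : (k₁ : ℝ) ≤ k := by exact_mod_cast (by omega : k₁ ≤ k)
    rw [div_le_iff₀ (by linarith)] at hk₁
    nlinarith
  have hkm : k ≤ m := by
    have h1 : (k : ℝ) ≤ α * k := by
      have : (0 : ℝ) ≤ k := by positivity
      have : (0 : ℝ) ≤ r := by positivity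
      nlinarith
    exact_mod_cast h1.trans hm
  set b := m / D with hb
  have hbD : (m : ℝ) - D ≤ b * D := by
    have h1 : m < b * D + D := by
      have := Nat.lt_div_mul_add (a := m) hD0
      rw [hb]; exact this
    have h2 : (m : ℝ) < b * D + D := by exact_mod_cast h1
    linarith
  have hemb : Nonempty (Ω × Fin b ↪ Fin m) := by
    apply Function.Embedding.nonempty_of_card_le
    rw [Fintype.card_prod, Fintype.card_fin, Fintype.card_fin, ← hD, mul_comm]
    exact Nat.div_mul_le_self m D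
  obtain ⟨ι⟩ := hemb
  have hf : ∀ T : Finset Ω, ∃ A : {A : Finset (Fin m) // A.card = k},
      k ≤ b * T.card → A.1 ⊆ (T ×ˢ (univ : Finset (Fin b))).map ι := by
    intro T
    by_cases h : k ≤ b * T.card
    · obtain ⟨A, hA, hAc⟩ := Finset.exists_subset_card_eq
        (s := (T ×ˢ (univ : Finset (Fin b))).map ι) (n := k) (by simpa [mul_comm] using h)
      exact ⟨⟨A, hAc⟩, fun _ => hA⟩
    · obtain ⟨A, -, hAc⟩ := Finset.exists_subset_card_eq
        (s := (univ : Finset (Fin m))) (n := k) (by simpa using hkm)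
      exact ⟨⟨A, hAc⟩, fun h' => absurd h' h⟩
  choose f hf using hf
  obtain ⟨S, hsize, hdisj, i, hi⟩ := hΩ (fun T T' =>
    if h : (kneserGraph m k).Adj (f T) (f T') then χ ⟨s(f T, f T'), h⟩ else ⟨0, hc⟩)
  have hbig : ∀ j, k ≤ b * (S j).card := by
    intro j
    have h1 := hsize j
    have h2 : ((r : ℝ) + 2) * k ≤ ((r : ℝ) + 2) * (b * (S j).card) := by
      have hb0 : (0 : ℝ) ≤ b := by positivity
      have h3 : (1 - η) * (b * D) ≤ ((r : ℝ) + 2) * (b * (S j).card) := by
        have := mul_le_mul_of_nonneg_left h1 hb0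
        nlinarith
      have h4 : (1 - η) * (α * k - D) ≤ (1 - η) * (b * D) :=
        mul_le_mul_of_nonneg_left (by linarith) hη2
      have h5 : (1 - η) * (α * k - D) = (α + (r + 2)) / 2 * k - (1 - η) * D := by
        rw [← hη1]; ring
      have h6 : (1 - η) * D ≤ D := by
        have : (0 : ℝ) ≤ D := by positivity
        nlinarith
      nlinarith
    have h3 : (k : ℝ) ≤ b * (S j).card := le_of_mul_le_mul_left h2 hr
    exact_mod_cast h3
  have hadj : ∀ j j', j < j' → (kneserGraph m k).Adj (f (S j)) (f (S j')) := by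
    intro j j' hj
    have hd : Disjoint (f (S j)).1 (f (S j')).1 := by
      refine Disjoint.mono (hf _ (hbig j)) (hf _ (hbig j')) ?_
      rw [Finset.disjoint_map]
      rw [Finset.disjoint_left]
      intro a h1 h2
      exact Finset.disjoint_left.mp (hdisj j j' hj) (Finset.mem_product.mp h1).1
        (Finset.mem_product.mp h2).1
    refine ⟨fun h => ?_, hd⟩
    rw [← h, disjoint_self, Finset.bot_eq_empty] at hd
    have := (f (S j)).2
    rw [hd, Finset.card_empty] at this
    omega
  have hinj : Function.Injective (fun j => f (S j)) := by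
    intro j j' h
    by_contra hne
    rcases lt_or_gt_of_ne hne with h1 | h1
    · exact (hadj j j' h1).1 h
    · exact (hadj j' j h1).1 h.symm
  refine ⟨univ.image (fun j => f (S j)), ⟨?_, ?_⟩, i, ?_⟩
  · intro A hA B hB hAB
    obtain ⟨j, -, rfl⟩ := Finset.mem_image.mp hA
    obtain ⟨j', -, rfl⟩ := Finset.mem_image.mp hB
    have hne : j ≠ j' := fun h => hAB (by rw [h])
    rcases lt_or_gt_of_ne hne with h1 | h1
    · exact hadj j j' h1
    · exact (hadj j' j h1).symm
  · rw [Finset.card_image_of_injective _ hinj, Finset.card_univ, Fintype.card_fin]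
  · intro A hA B hB h
    obtain ⟨j, -, rfl⟩ := Finset.mem_image.mp hA
    obtain ⟨j', -, rfl⟩ := Finset.mem_image.mp hB
    have hne : j ≠ j' := fun h' => h.1 (by rw [h'])
    rcases lt_or_gt_of_ne hne with h1 | h1
    · have := hi j j' h1
      rwa [dif_pos h] at this
    · have := hi j' j h1
      rw [dif_pos h.symm] at this
      rw [← this]
      congr 1
      exact Subtype.ext Sym2.eq_swap

end Pool.Agent.Work.MP_90c2fd_co
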